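import Pool.Agent.V11219.OmInd

/-!
# Algebraic independence in bounded degree of abelian logarithms and integrals of the second kind for
almost all fibres of families of abelian varieties with sections and local monodromy conditions

The case `s = 0`, `G = A`, of the conjecture says: for points `P_1, …, P_n` of an abelian variety `A` over
a number field the `2 g n` numbers `∫_O^{P_l} ω_i`, `∫_O^{P_l} η_i` are algebraically independent over
the field generated by the periods `Ω_A`, if the points are algebraic and independent over `End A`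
and `A` is simple, say.

Let `h_i`, `1 ≤ i ≤ k`, be families of G-functions over `ℚ` (with the conditions of Siegel and
Galochkin, regular singular with rational exponents at `0`) and let `P_i(x)` be square matrices of size
`p_i + q_i` whose entries are polynomials with complex coefficients in `log x` and in the functions
`h_{i,l}(x)`: the period matrices of families of 1-motives `[ℤ^{q_i} → A_{i,x}]`, where the
`A_i = ∏_j A_ij` are families of abelian varieties over an open part of the line, near a rational
point which may be a point of degeneration, and the `q_i` points are algebraic sections. The value of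
`P_i` is `((X, 0), (v, 1))`, where `X` is the matrix of the periods and quasi-periods of `A_{i,x}` and
`v` the matrix of the integrals of the differentials of the first and second kind from `O` to the
points: the `a`-th point is a section of the factor with the index `j = γ_i(a)`, and `β_i(b)` is
the index of the factor of the `b`-th cycle. Let `Gal(P_i)` be the group of the matrices `g` such that
`P_i` and `g P_i` satisfy the same polynomial relations over `ℂ(x)` (the Zariski closure of the
monodromy group, if `P_i` is a fundamental matrix of a system).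

**Conditions** (`PathMonodromy`). Every element of `Gal(P_i)` is of the form `((g, 0), (w, 1))`; the group
of the `g` satisfies the condition `LocalMonodromy` on the local monodromy: it is block diagonal,
respects the polarisations up to characters, acts strongly irreducibly on the pieces `H_1(A_ij)`, no
two of which are isomorphic up to scalars; for every piece there is an element `g`, with
`(g - 1) ^ 2 = 0` (the local monodromy around a point of semistable reduction), such that the rank
of `g - 1` on the piece and the multiplicities of the nonzero eigenvalues of the `(g - 1) (g' - 1)`,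
for other elements `g'` of this type, are coprime, or contain the number two (or the variant with
several elements). No nonzero linear combination of the cycles and paths is fixed by `Gal(P_i)`
(the sections are independent).

**Theorem.** For every `D`, for almost all tuples of integers `t` (all but
`C N^(k-1) ∑_i (1 + N / (x_i + N)^c)` of the tuples in the box `∏_i (x_i, x_i + N]`) the following holds
for all number fields `K` of degree at most `D` at once, all `m_i`, `β_i`, `γ_i` and polarisations
`B_i` as above. Let `X_i`, `v_i` be the values of the matrices at `x_i = 1 / t_i`. The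
`∑_i ∑_j q_ij n_ij` numbers `v_i(a, b)` (`a` a path and `b` a cycle of the same piece; `n_ij` is the
rank of the piece, twice the dimension of `A_ij`) satisfy no nontrivial polynomial relation of degree
at most `D` whose coefficients are values of polynomials over `K` of degree at most `D` at the
entries of all the matrices `X_1, …, X_k` (all periods of all the abelian varieties) and at the
entries of any given matrix `C₀` (for example the periods of any other motive).

Moreover there are `D(N) → ∞` and `δ(N) → 0` such that for all but `δ(N) N^k` tuples `t` in `[1, N]^k`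
this is true for all number fields of degree at most `D(N)` and all relations of degree at most `D(N)`.

Proof. The Lie algebra of the derivations which preserve the relations of `P_i` contains `sp` of each piece
modulo the radical, by a theorem on extremal elements and Goursat's lemma (see `MP_90d181_ag`). If it
does not contain the whole radical, some functional of the paths defines a cocycle of `sp` with values
in the standard representation; this is a coboundary by a calculation with elements of rank one, and
gives a combination of the cycles and paths which is fixed by `Gal(P_i)`. So `Gal(P_i)` contains all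
matrices `((1, 0), (w, 1))` (`w` compatible with the pieces), and even its identity component. By the
theorem on values of G-functions of helper120 and the theorem of helper273 on all number fields at
once, relations of degree at most `2 D` of the period point are relations of its translates.
-/

set_option autoImplicit false

open PowerSeries Filter
open scoped Matrix

namespace Pool.Agent.Results.MP_4b482e_nt.AbelianLogarithmsInFamilies

open Pool.Agent.V11219.Per Pool.Agent.V11219.Om

theorem iter_eq {r : ℕ} (T : Polynomial ℤ) (A : Fin r → Fin r → Polynomial ℤ) (s : ℕ) :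
    iter T A s = Pool.Agent.Y120.GH.itm T A s := by
  induction s with
  | zero => rfl
  | succ s ih =>
    funext i j
    rw [iter, Pool.Agent.Y120.GH.itm, ih]

theorem qu_eq {r : ℕ} {T : Polynomial ℤ} {A : Fin r → Fin r → Polynomial ℤ}
    (h : QuasiUnipotent T A) : Pool.Agent.Y120.GH.QU0 T A := by
  obtain ⟨e, M, K, Φ, he, hdet, hc, heq⟩ := h
  have he0 : e ≠ 0 := by omega
  refine ⟨e, he0, M, K, Φ, hc, fun i j n => ?_, hdet⟩
  have h1 := heq i j n
  simp only [atPow] at h1
  rw [Pool.Agent.Y120.GH.expand_poly he0]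
  simp only [Pool.Agent.Y120.GH.expand_poly he0]
  exact h1

theorem fam {r : ℕ} {T : Polynomial ℤ} {A : Fin r → Fin r → Polynomial ℤ}
    {h : Fin r → PowerSeries ℚ} (hG : GFamily T A h) (δ : ℕ) : Pool.Agent.Y120.R.Fam δ h :=
  ⟨hG.size, Pool.Agent.Y120.GH.family_main hG.T_ne hG.ode hG.size hG.den (by
    obtain ⟨C, hC⟩ := hG.galochkin
    refine ⟨C, fun m => ?_⟩
    obtain ⟨d, h1, h2, h3⟩ := hC m
    refine ⟨d, h1, h2, fun s hs i' j' => ?_⟩
    rw [← iter_eq]
    exact h3 s hs i' j') (qu_eq hG.regular) δ⟩

section
variable {k r : ℕ} {p q ρ : Fin k → ℕ}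

/-- The conclusion for one tuple; `Z i` is the period matrix of the fibre of the `i`-th family. -/
def Good (D : ℕ) (C₀ : Matrix (Fin r) (Fin r) ℂ) (h : ∀ i, Fin (ρ i) → PowerSeries ℚ)
    (P : ∀ i, Fin (p i + q i) → Fin (p i + q i) → MvPolynomial (Option (Fin (ρ i))) ℂ)
    (Z : ∀ i, Matrix (Fin (p i + q i)) (Fin (p i + q i)) ℂ) : Prop :=
  ∀ K : Subfield ℂ, FiniteDimensional ℚ K → Module.finrank ℚ K ≤ D →
  ∀ (m : Fin k → ℕ) (β : ∀ i, Fin (p i) → Fin (m i)) (γ : ∀ i, Fin (q i) → Fin (m i))
    (B : ∀ i, Matrix (Fin (p i)) (Fin (p i)) ℂ),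
  (∀ i, PathMonodromy (β i) (γ i) (B i) (Gal (h i) (P i))) →
  ∀ (X : ∀ i, Matrix (Fin (p i)) (Fin (p i)) ℂ) (v : ∀ i, Matrix (Fin (q i)) (Fin (p i)) ℂ),
  (∀ i, Z i = ext (X i) (v i) ∧ IsUnit (X i) ∧ BlockDiagonal (β i) (X i) ∧
    Compatible (β i) (γ i) (v i)) →
  ∀ F : MvPolynomial (LogIdx β γ) ℂ, F ≠ 0 → F.totalDegree ≤ D →
    (∀ s, F.coeff s ∈ Coefficients K D C₀ X) →
    MvPolynomial.eval (fun x : LogIdx β γ => v x.1.1 x.1.2.1 x.1.2.2) F ≠ 0

theorem good_of {D : ℕ} {C₀ : Matrix (Fin r) (Fin r) ℂ} {h : ∀ i, Fin (ρ i) → PowerSeries ℚ}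
    {P : ∀ i, Fin (p i + q i) → Fin (p i + q i) → MvPolynomial (Option (Fin (ρ i))) ℂ}
    {t : Fin k → ℕ} (hg : Pool.Agent.V11273.GH.GoodI (D + D) C₀ h P t) :
    Good D C₀ h P fun i => perMat (h i) (P i) (t i : ℝ) := by
  intro K hKf hKD m β γ B hL X v hXv F hF0 hFd hFc hF
  apply hF0
  exact logs_indep (relE_of hg hKf (hKD.trans (Nat.le_add_left D D)) hL)
    (fun i => (hL i).cycles.form.unit) (fun i => (hXv i).1) (fun i => (hXv i).2.1)
    (fun i => (hXv i).2.2.1) (fun i => (hXv i).2.2.2) hFd hFc hF

end

/-- **The theorem.** -/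
theorem result (k e r : ℕ) (ρ p q : Fin k → ℕ) (T : Fin k → Polynomial ℤ)
    (A : ∀ i, Fin (ρ i) → Fin (ρ i) → Polynomial ℤ) (h : ∀ i, Fin (ρ i) → PowerSeries ℚ)
    (hG : ∀ i, GFamily (T i) (A i) (h i)) :
    -- number fields of degree at most `D`
    (∀ D : ℕ, ∃ c C : ℝ, 0 < c ∧ 0 ≤ C ∧
      ∀ P : ∀ i, Fin (p i + q i) → Fin (p i + q i) → MvPolynomial (Option (Fin (ρ i))) ℂ,
      (∀ i a b, (P i a b).totalDegree ≤ e) → ∀ C₀ : Matrix (Fin r) (Fin r) ℂ,
      ∀ (x : Fin k → ℕ) (N : ℕ), 1 ≤ N →
      (({t : Fin k → ℕ | (∀ i, x i < t i ∧ t i ≤ x i + N) ∧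
        ¬ Good D C₀ h P fun i => perMat (h i) (P i) (t i : ℝ)}.ncard : ℕ) : ℝ) ≤
        C * (N : ℝ) ^ (k - 1) * ∑ i, (1 + N / ((x i : ℝ) + N) ^ c)) ∧
    -- number fields of degree at most `D N`, which tends to infinity
    (∃ (D : ℕ → ℕ) (δ : ℕ → ℝ), Tendsto D atTop atTop ∧ Tendsto δ atTop (nhds 0) ∧
      ∀ P : ∀ i, Fin (p i + q i) → Fin (p i + q i) → MvPolynomial (Option (Fin (ρ i))) ℂ,
      (∀ i a b, (P i a b).totalDegree ≤ e) → ∀ C₀ : Matrix (Fin r) (Fin r) ℂ, ∀ N : ℕ, 1 ≤ N →
      (({t : Fin k → ℕ | (∀ i, 1 ≤ t i ∧ t i ≤ N) ∧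
        ¬ Good (D N) C₀ h P fun i => perMat (h i) (P i) (t i : ℝ)}.ncard : ℕ) : ℝ) ≤
        δ N * (N : ℝ) ^ k) := by
  classical
  have hmain : ∀ D : ℕ, ∃ c C : ℝ, 0 < c ∧ 0 ≤ C ∧
      ∀ P : ∀ i, Fin (p i + q i) → Fin (p i + q i) → MvPolynomial (Option (Fin (ρ i))) ℂ,
      (∀ i a b, (P i a b).totalDegree ≤ e) → ∀ C₀ : Matrix (Fin r) (Fin r) ℂ,
      ∀ (x : Fin k → ℕ) (N : ℕ), 1 ≤ N →
      (({t : Fin k → ℕ | (∀ i, x i < t i ∧ t i ≤ x i + N) ∧
        ¬ Good D C₀ h P fun i => perMat (h i) (P i) (t i : ℝ)}.ncard : ℕ) : ℝ) ≤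
        C * (N : ℝ) ^ (k - 1) * ∑ i, (1 + N / ((x i : ℝ) + N) ^ c) := by
    intro D
    obtain ⟨c, C, hc, hC, hmain⟩ := Pool.Agent.V11273.GH.idc_main k (D + D) e r ρ
      (fun i => p i + q i) h fun i δ => fam (hG i) δ
    refine ⟨c, C, hc, hC, ?_⟩
    intro P hP C₀ x N hN
    set E := {t : Fin k → ℕ | (∀ i, x i < t i ∧ t i ≤ x i + N) ∧
        ¬ Good D C₀ h P fun i => perMat (h i) (P i) (t i : ℝ)} with hE
    have hfin : E.Finite := by
      refine (Set.finite_Iic (fun i : Fin k => x i + N)).subset ?_
      intro t ht i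
      exact (ht.1 i).2
    rw [Set.ncard_eq_toFinset_card E hfin]
    refine hmain P hP C₀ x N hN _ fun t ht => ?_
    have ht' : t ∈ E := hfin.mem_toFinset.1 ht
    exact ⟨ht'.1, fun hgood => ht'.2 (good_of hgood)⟩
  refine ⟨hmain, ?_⟩
  choose c C hc hC hcount using hmain
  obtain ⟨D, hD, hδ⟩ := Pool.Agent.Y123.GN.diag_seq
    (fun D N => C D * k * (1 / (N : ℝ) + 1 / (N : ℝ) ^ (c D))) (by
      intro D
      have h1 : Tendsto (fun N : ℕ => (1 : ℝ) / (N : ℝ)) atTop (nhds 0) :=
        tendsto_one_div_atTop_nhds_zero_nat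
      have h2 : Tendsto (fun N : ℕ => (1 : ℝ) / (N : ℝ) ^ (c D)) atTop (nhds 0) := by
        have h3 := (tendsto_rpow_atTop (hc D)).comp tendsto_natCast_atTop_atTop
        have h4 := h3.inv_tendsto_atTop
        refine h4.congr fun N => ?_
        rw [one_div]
        rfl
      have h5 := (h1.add h2).const_mul (C D * k)
      rw [add_zero, mul_zero] at h5
      exact h5)
  refine ⟨D, _, hD, hδ, ?_⟩
  intro P hP C₀ N hN
  have h1 := hcount (D N) P hP C₀ (fun _ => 0) N hN
  have h2 : {t : Fin k → ℕ | (∀ i, 0 < t i ∧ t i ≤ 0 + N) ∧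
      ¬ Good (D N) C₀ h P fun i => perMat (h i) (P i) (t i : ℝ)} =
      {t : Fin k → ℕ | (∀ i, 1 ≤ t i ∧ t i ≤ N) ∧
      ¬ Good (D N) C₀ h P fun i => perMat (h i) (P i) (t i : ℝ)} := by
    ext t
    simp only [Set.mem_setOf_eq, zero_add, Nat.lt_iff_add_one_le]
  rw [h2] at h1
  refine h1.trans (le_of_eq ?_)
  have hN0 : (N : ℝ) ≠ 0 := by
    have : N ≠ 0 := by omega
    exact_mod_cast this
  rw [Finset.sum_const, Finset.card_univ, Fintype.card_fin, nsmul_eq_mul, Nat.cast_zero, zero_add]
  rcases Nat.eq_zero_or_pos k with hk | hk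
  · subst hk
    simp
  · obtain ⟨s, rfl⟩ : ∃ s, k = s + 1 := ⟨k - 1, by omega⟩
    have h3 : (N : ℝ) ^ (s + 1) = (N : ℝ) ^ s * N := pow_succ _ _
    rw [Nat.add_sub_cancel, h3]
    have h4 : (1 : ℝ) + N / (N : ℝ) ^ (c (D N)) = N * (1 / (N : ℝ) + 1 / (N : ℝ) ^ (c (D N))) := by
      rw [mul_add, mul_one_div_cancel hN0, mul_one_div]
    rw [h4]
    ring

end Pool.Agent.Results.MP_4b482e_nt.AbelianLogarithmsInFamilies
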