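import Pool.Agent.TH21.MS.PolyLog
import Pool.Agent.Helper264.NT.NearK2

/-!
# Exponentials of polynomials in logarithms of algebraic numbers near all points outside of a set of dimension `n - 1`

For the torus `G = G_m^s` the problem asks whether, for nonzero complex numbers `τ_1, …, τ_s`, the field generated over
`Q̄ (2πi)` by the `τ_i` and the `log τ_i` has transcendence degree at least the dimension `t` of the `ℚ`-space spanned by
the `log τ_i` modulo `2πi ℚ`. Let `x_1, …, x_n` be positive algebraic numbers and `Q_1, …, Q_M` polynomials in one variable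
`s` with real algebraic coefficients such that no nontrivial integer combination of `s, Q_1, …, Q_M` is constant, and
take for the `τ_i` the numbers `x_j` and `exp (Q_k (log x_j))`; for instance `x ^ (log x)`, `x ^ ((log x) ^ 2)`,
`x ^ (√2 log x)`, …. Then the `n (M + 1)` numbers `log x_j` and `exp (Q_k (log x_j))` should be algebraically independent
over `Q̄ (π)` if the logarithms `log x_j`, `Q_k (log x_j)` are linearly independent over `ℚ`.

The starting result `PolynomialsInLogs` bounds the number of the exceptional `n`-tuples of rational numbers at every scale.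
Here there are no exceptional tuples: there is ONE set `E` in `ℝ ^ n` of Hausdorff dimension at most `n - 1` such that for all
`y` with positive coordinates outside of `E`, ALL real number fields `K`, all degrees `d`, all `A` and ALL exponents `w > 0`
(arbitrarily small), no tuple `x` in `K ^ n` of height at most `T` with `|x - y| ≤ T ^ (-w)` satisfies a relation, even an
approximate one, of degree at most `d` and height at most `T ^ A` between the numbers `π`, `log x_j` and
`exp (Q_k (log x_j))`, if `T` is large. (For `w < 1` there are such rational tuples for all `y` and all large `T`.) The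
bound for the dimension is sharp, because of the hyperplanes `y_1 = y_2`; for `n = 1` the dimension of `E` is zero. The
coefficients of the polynomials `Q_k` can be arbitrary real numbers.

The proof uses the independence of the functions (growth after the substitution `t = exp s`, `Pool.Agent.TH21.MS.PolyLog`)
and the near-point theorem of helper264 (`Pool.Agent.Helper264.NT.mainK`).
-/

set_option autoImplicit false

open Set Height
open scoped ENNReal

namespace Pool.Agent.Results.MP_4b482e_nt.NearPointsAllFields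

/-- The `n (M + 1) + 1` numbers `π`, `log x_j` and `exp (Q_k (log x_j))`. -/
noncomputable def numbers {M n : ℕ} (Q : Fin M → Polynomial ℝ) (x : Fin n → ℝ) : Option (Fin n × Option (Fin M)) → ℝ
  | none => Real.pi
  | some (j, none) => Real.log (x j)
  | some (j, some k) => Real.exp ((Q k).eval (Real.log (x j)))

/-- Some nonzero polynomial of degree at most `d` in each variable, with coefficients in `K` of height at most `U`, has at
the numbers of the tuple `x` of elements of `K` a value of absolute value at most `δ`. -/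
def Related {M n : ℕ} (Q : Fin M → Polynomial ℝ) (K : IntermediateField ℚ ℝ) [NumberField K] (d : ℕ) (U δ : ℝ)
    (x : Fin n → K) : Prop :=
  ∃ P : MvPolynomial (Option (Fin n × Option (Fin M))) K, P ≠ 0 ∧ (∀ i, P.degreeOf i ≤ d) ∧
    (∀ e, mulHeight₁ (P.coeff e) ≤ U) ∧
    |MvPolynomial.eval₂ (algebraMap K ℝ) (numbers Q (fun l => (x l : ℝ))) P| ≤ δ

/-- Let `n ≥ 1` and let `Q_1, …, Q_M` be real polynomials in `s` such that `c_0 s + ∑ c_k Q_k` is not constant for
integers `c_0, …, c_M` not all zero. There is a subset `E` of `ℝ ^ n` of Hausdorff dimension at most `n - 1` such that for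
all `y` outside of `E` with positive coordinates, all real number fields `K`, all `d`, `A` and `w > 0` there are `B` and `T₀`
such that for all `T ≥ T₀` no `n`-tuple `x` of elements of `K` of height at most `T` with `|x_j - y_j| ≤ T ^ (-w)` has a
relation of degree at most `d`, of height at most `T ^ A`, up to `T ^ (-B)`. -/
theorem result (M n : ℕ) (hn : 1 ≤ n) (Q : Fin M → Polynomial ℝ)
    (hQ : ∀ (c0 : ℤ) (c : Fin M → ℤ),
      (Polynomial.C (c0 : ℝ) * Polynomial.X + ∑ k, Polynomial.C (c k : ℝ) * Q k).natDegree = 0 → c0 = 0 ∧ c = 0) :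
    ∃ E : Set (Fin n → ℝ), dimH E ≤ ((n - 1 : ℕ) : ℝ≥0∞) ∧ ∀ y ∉ E, (∀ j, 0 < y j) →
      ∀ (K : IntermediateField ℚ ℝ) [NumberField K] (d : ℕ) (A w : ℝ), 0 < w → ∃ B T₀ : ℝ, ∀ T ≥ T₀,
        ∀ x : Fin n → K, (∀ j, mulHeight₁ (x j) ≤ T ∧ |(x j : ℝ) - y j| ≤ T ^ (-w)) →
          ¬ Related Q K d (T ^ A) (T ^ (-B)) x := by
  haveI : Nonempty (Fin n) := ⟨⟨0, hn⟩⟩
  obtain ⟨h, hLB⟩ := Pool.Agent.TH21.MS.LB_up Q hQ
  have hind : Pool.Agent.Y771.KF.AIndepS (Pool.Agent.TH21.MS.up Q) (Ioi (0 : ℝ)) := by
    have h1 : Pool.Agent.Y124.AIndep (Pool.Agent.TH21.MS.up Q) 1 2 :=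
      Pool.Agent.Y771.KF.aindep_of_rindep _ _ _ fun d =>
        Pool.Agent.TH21.MS.rindep_of_LB (Pool.Agent.TH21.MS.up Q) h 1 (Pool.Agent.TH21.MS.up_an Q 1 one_pos) hLB d 1 2
          le_rfl (by norm_num)
    intro P hP
    exact h1 P fun t ht => hP t (lt_of_lt_of_le one_pos ht.1)
  have han : ∀ i, AnalyticOnNhd ℝ (Pool.Agent.TH21.MS.up Q i) (Ioi (0 : ℝ)) := by
    intro i t ht
    exact Pool.Agent.TH21.MS.up_an Q t ht i t Set.self_mem_Ici
  obtain ⟨E, hE1, hE2⟩ := Pool.Agent.Helper264.NT.mainK (𝕜 := ℝ) (X := Fin n) Complex.ofRealHom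
    (fun a => (Complex.norm_real a).symm) (fun _ : Fin n => Pool.Agent.TH21.MS.up Q) (fun _ : Unit => Real.pi)
    (fun _ => Ioi (0 : ℝ)) (fun _ => isOpen_Ioi) (fun _ => isPreconnected_Ioi) (fun _ i => han i) (fun _ => hind)
    Pool.Agent.Y124.goodXi_pi
  refine ⟨E, by simpa using hE1, fun y hy hy0 K _ d A w hw => ?_⟩
  obtain ⟨B, T₀, hB⟩ := hE2 y hy hy0 K d A w hw
  refine ⟨B, T₀, fun T hT x hx => ?_⟩
  have h1 := hB T hT x (fun l => ⟨(hx l).1, (hx l).2⟩)
  have h2 := Pool.Agent.Helper264.NT.norel_rename (Equiv.optionEquivSumPUnit.{0} (Fin n × Option (Fin M)))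
    (algebraMap K ℝ) (fun _ : Fin n => Pool.Agent.TH21.MS.up Q) (fun _ : PUnit => Real.pi) d A B T x h1
    (fun l => (hx l).1) (numbers Q (fun l => (x l : ℝ))) (by
      intro i
      rcases i with _ | ⟨j, _ | k⟩
      · rfl
      · rfl
      · rfl)
  rintro ⟨P, h3, h4, h5, h6⟩
  exact absurd (h2 P h3 h4 h5) (not_lt.2 h6)

end Pool.Agent.Results.MP_4b482e_nt.NearPointsAllFields
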