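import Pool.Agent.Results.MP_4b482e_nt.PolynomialsInLogs
import Pool.Agent.V11300.PA.Rat

/-!
# Exponentials of polynomials in logarithms of ALL the rational numbers near almost every `p`-adic point

Let `[a, b] ⊂ (0, ∞)` and let `Q_1, …, Q_M` be real polynomials such that no nontrivial integer combination of
`s, Q_1, …, Q_M` is constant. Let `p` be a prime number and `κ > 0`. For all `α ∈ ℚ_p ^ n` outside of a set of Hausdorff
dimension at most `κ (2 n - 2 / ((d + 1) ^ ((M + 1) n + 1) + 1))` and all `A` there are `B`, `m₀` such that for all `m ≥ m₀`, with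
`T = p ^ (κ m)`, and ALL the `n`-tuples `q` of rational numbers in `[a, b]` with denominators at most `T` and
`|q_j - α_j|_p ≤ p ^ (-m)`: every nonzero integral polynomial with coefficients at most `T ^ A`, of degree at most `d` in each
variable, has an absolute value larger than `T ^ (-B)` at the `n (M + 1) + 1` numbers `π`, `log q_j` and `exp (Q_k (log q_j))`.
The definitions `numbers`, `Exceptional` are those of the starting file `PolynomialsInLogs`.
-/

set_option autoImplicit false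

open Filter Topology

namespace Pool.Agent.Results.MP_4b482e_nt.PadicNeighbourhoods

open PolynomialsInLogs (Exceptional numbers)

/-- **Theorem.** -/
theorem result (M n d : ℕ) (hn : 1 ≤ n) (Q : Fin M → Polynomial ℝ)
    (hQ : ∀ (c0 : ℤ) (c : Fin M → ℤ),
      (Polynomial.C (c0 : ℝ) * Polynomial.X + ∑ k, Polynomial.C (c k : ℝ) * Q k).natDegree = 0 → c0 = 0 ∧ c = 0)
    (a b : ℝ) (ha : 0 < a) (hab : a < b)
    (p : ℕ) [Fact p.Prime] (κ : ℝ) (hκ : 0 < κ) :
    ∃ E : Set (Fin n → ℚ_[p]), dimH E ≤ ENNReal.ofReal (κ * (2 * n - 2 / (((d : ℝ) + 1) ^ ((M + 1) * n + 1) + 1))) ∧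
      ∀ α : Fin n → ℚ_[p], α ∉ E → ∀ A : ℕ, ∃ (B : ℝ) (m₀ : ℕ), ∀ m : ℕ, m₀ ≤ m → ∀ q : Fin n → ℚ,
        (∀ j, (q j : ℝ) ∈ Set.Icc a b ∧ ((q j).den : ℝ) ≤ (p : ℝ) ^ (κ * m)) →
        (∀ j, ‖((q j : ℚ) : ℚ_[p]) - α j‖ ≤ (p : ℝ) ^ (-(m : ℝ))) →
        ∀ P : MvPolynomial (Option (Fin n × Option (Fin M))) ℤ, P ≠ 0 → (∀ x, P.degreeOf x ≤ d) →
          (∀ s, |((P.coeff s : ℤ) : ℝ)| ≤ ((p : ℝ) ^ (κ * m)) ^ (A : ℝ)) →
          ((p : ℝ) ^ (κ * m)) ^ (-B) < |MvPolynomial.aeval (numbers Q q) P| := by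
  obtain ⟨E, h1, h2⟩ := Pool.Agent.V11300.PA.rational_points p hn (Pool.Agent.V11300.PA.beta_nonneg d ((M + 1) * n + 1)) hκ
    (fun A B T => Exceptional n d Q a b A B T) (fun A β hA hβ => PolynomialsInLogs.result M n d hn Q hQ A a b β hA ha hab hβ)
  refine ⟨E, ?_, fun α hα A => ?_⟩
  · have e : (2 * n - 2 / (((d : ℝ) + 1) ^ ((M + 1) * n + 1) + 1) : ℝ) =
        2 * ((n : ℝ) - 1) + (2 - 2 / (((d : ℝ) + 1) ^ ((M + 1) * n + 1) + 1)) := by ring
    rw [e]
    exact h1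
  · obtain ⟨B, m₀, h⟩ := h2 α hα A
    refine ⟨B, m₀, fun m hm q hq hd P hP0 hPd hPc => ?_⟩
    by_contra hcon
    rw [not_lt] at hcon
    exact h m hm q hd ⟨hq, P, hP0, hPd, hPc, hcon⟩

end Pool.Agent.Results.MP_4b482e_nt.PadicNeighbourhoods
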