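import Pool.Agent.Results.MP_4b482e_nt.AlgebraicWindows
import Pool.Agent.Y916.Sl.DegF
import Pool.Agent.V11168.NX.AI
import Pool.Agent.V11168.NX.Cst

/-!
# Generalised logarithms of ALL algebraic points over the tuples near almost all dilated tuples of polynomials, relative to the periods

For polynomials `F_a`, `q_a` let `Φ_(a,j)` be the primitives of `x^j dx / (q_a √F_a)`, `j < deg F_a - 1 + deg q_a`: up to
constants the components of the generalised logarithm of the point `R_x` of the generalised Jacobian `G_a` of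
`C_a : y² = F_a(x)` (an extension of the Jacobian by a torus of dimension `deg q_a`, not split in general) defined by
`(x, √F_a(x)) - ∞`. The starting file `AlgebraicWindows` proves for windows around algebraic numbers that between these
numbers there is no relation of bounded degree over the periods of `G = ∏ G_a` and over number fields of bounded degree, except
for a few unknown points in each window.

Here we prove a statement without exceptional points, for **tuples** of algebraic integers of degree `m`, each in its own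
number field. The tuple `α` is given by its minimal polynomials; for a tuple `x` of `k` monic **real** polynomials
`X^m + ∑ x_(i,j) X^j` we consider the dilates `X^m + ∑ x_(i,j) V^(m-j) X^j` by `V = v_N`, and **all** `k`-tuples `α` of algebraic
integers of degree `m` whose minimal polynomials have coefficients at distance at most `V^ω` from the coefficients of the
dilates. The theorem: if the exponent of convergence of `v_N ≥ 1` is zero (for example `v_N = 2 ^ N`), then for every countable
set `M` of complex numbers (for instance the field generated by the periods of `G` and by the components of the generalised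
logarithms of countably many arbitrary points of `G(ℂ)`) and almost all `x`, for all large `N`, all these tuples `α` and all
constants `c_1, …, c_t ∈ M`: if `y` consists of nonzero `K`-multiples of the numbers at the points `α_i + θ_j`, plus elements of
`K + ∑ K c_l` (for example: the generalised logarithms of `R + R'`, `R` over `α_i + θ_j` and `R'` fixed), and `P` is a polynomial
over `K` of degree at most `δ` with `P(c, y) = 0`, then `P(c, Y) = 0` identically in `Y`; `K` is any number field of degree at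
most `d`. So in bounded degree the transcendence degree over the field of periods is the full number
`k r ∑_a (deg F_a - 1 + deg q_a)`, plus the number `k r` of the logarithms of the `α_i + θ_j`.

Proof: the theorem on almost all tuples of algebraic integers of the starting library (`Pool.Agent.Y916.Sl.tuplesD`), the
elimination of the constants, and the Borel–Cantelli lemma for boxes of sides `V^(ω - (m - j))`
(`Pool.Agent.V11168.NX.ae_ai`).
-/

set_option autoImplicit false

open MeasureTheory Filter Module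

namespace Pool.Agent.Results.MP_4b482e_nt.WindowsOfAlgebraicIntegers

open Pool.Agent.Results.MP_4b482e_nt.AlgebraicWindows

/-- The `α_i` are algebraic integers of degree `m`, and the coefficients of their minimal polynomials are at distance at most
`r` from the coefficients `x_(i,j) V^(m-j)` of the dilated polynomials `X^m + ∑ x_(i,j) V^(m-j) X^j`. -/
def Near {k : ℕ} (m : ℕ) (x : Fin k × Fin m → ℝ) (V r : ℝ) (α : Fin k → ℂ) : Prop :=
  ∀ i, IsIntegral ℤ (α i) ∧ (minpoly ℤ (α i)).natDegree = m ∧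
    ∀ j : Fin m, |((minpoly ℤ (α i)).coeff j : ℝ) - x (i, j) * V ^ (m - (j : ℕ))| ≤ r

/-- The exponent of convergence of the sequence `v` is at most `τ`. -/
def ConvergenceExponentLe (v : ℕ → ℝ) (τ : ℝ) : Prop := ∀ s : ℝ, τ < s → Summable (fun n : ℕ => (v n) ^ (-s))

/-- For every number field `K` of degree at most `d`, all numbers `y` which are nonzero `K`-multiples of the numbers `x` plus
elements of `K + ∑ K c_l` and every polynomial `P` over `K` of degree at most `δ`: `P(c, y) = 0` only if `P(c, Y) = 0`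
identically in `Y`. -/
def FreeOver {σ : Type} (δ d : ℕ) {t : ℕ} (c : Fin t → ℂ) (x : σ → ℂ) : Prop :=
  ∀ K : IntermediateField ℚ ℂ, FiniteDimensional ℚ K → Module.finrank ℚ K ≤ d →
    ∀ y : σ → ℂ, (∀ p, ∃ b : K, b ≠ 0 ∧ y p - b * x p ∈ Submodule.span K (insert 1 (Set.range c))) →
    ∀ P : MvPolynomial (Fin t ⊕ σ) K, P.totalDegree ≤ δ → MvPolynomial.aeval (Sum.elim c y) P = 0 →
      MvPolynomial.aeval (Sum.elim (fun j => MvPolynomial.C (c j)) MvPolynomial.X) P = (0 : MvPolynomial σ ℂ)

lemma main {s : ℕ} (F q : Fin s → Polynomial ℤ)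
    (hsf : ∀ a, Squarefree ((F a * q a).map (Int.castRingHom ℚ))) (hodd : ∀ a, Odd (F a).natDegree)
    (hdeg : ∀ a, 3 ≤ (F a).natDegree + 2 * (q a).natDegree)
    (hpos : ∀ a, 0 < (F a).leadingCoeff ∧ 0 < (q a).leadingCoeff)
    (hdist : ∀ a b, a ≠ b → ∀ h c₁ c₂ : ℤ, c₁ ≠ 0 → c₂ ≠ 0 →
      Polynomial.C c₁ * F a ≠ Polynomial.C c₂ * (F b).comp (Polynomial.X + Polynomial.C h))
    (u : ℂ) (hu : u ≠ 0) (R : ℝ) (S : Fin s → ℂ → ℂ) (Φ : Idx F q → ℂ → ℂ) (hΦ : Primitives F q u R S Φ)
    (k m r : ℕ) (θ : Fin r → ℕ) (δ d t : ℕ) :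
    ∃ ω : ℝ, 0 < ω ∧ ∀ v : ℕ → ℝ, (∀ N, 1 ≤ v N) → ConvergenceExponentLe v 0 → Function.Injective θ →
      ∀ c : Fin t → ℂ, ∀ᵐ x : Fin k × Fin m → ℝ, ∃ N₀ : ℕ, ∀ N : ℕ, N₀ ≤ N →
        ∀ α : Fin k → ℂ, Near m x (v N) ((v N) ^ ω) α → (∀ i j, α i + θ j ∈ Domain u R) →
          FreeOver δ d c fun p : (Fin k × Fin r) × (Idx F q ⊕ Unit) => number Φ (α p.1.1 + θ p.1.2) p.2 := by
  by_cases hθ : Function.Injective θ
  swap
  · exact ⟨1, one_pos, fun v _ _ h => absurd h hθ⟩
  have hG : ∀ a, Pool.Agent.Y916.Sa.GoodP (F a) (q a) := by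
    intro a
    have h := hsf a
    rw [Polynomial.map_mul, squarefree_mul_iff] at h
    exact ⟨h.2.1, hodd a, (hpos a).1, h.2.2, (hpos a).2, h.1.isCoprime, hdeg a⟩
  have hx : ∀ (x : ℂ) i, number Φ x i = Pool.Agent.Y916.Sl.xP F q Φ x i := by
    rintro x (p | w) <;> rfl
  simp only [hx]
  obtain ⟨c₀, hc₀, C, hC, h⟩ := Pool.Agent.Y916.Sl.tuplesD Pool.Agent.Y916.Sl.tV Pool.Agent.Y916.Sl.tQ
    Pool.Agent.Y916.Sl.tP F q hG (fun a b hab h c₁ c₂ => hdist a b hab h c₁ c₂) hu (R := R) (S := S) (Φ := Φ)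
    (fun x hx1 hx2 => hΦ x ⟨hx1, hx2⟩) m θ hθ k δ d ((t + 1) ^ (δ + 1))
  obtain ⟨h1, h2, h3⟩ := Pool.Agent.V11168.NX.exp_ok hc₀ (k * m)
  refine ⟨_, h1, fun v hv hv0 _ c => ?_⟩
  have hWf : Module.Finite ℚ (Pool.Agent.V11168.NX.Wq c) :=
    Module.Finite.span_of_finite ℚ ((Set.finite_range c).insert 1)
  have hWr : Module.finrank ℚ (Pool.Agent.V11168.NX.Wq c) ≤ t + 1 := by
    classical
    have h4 : (insert (1 : ℂ) (Set.range c)) = ((insert (1 : ℂ) (Finset.univ.image c) : Finset ℂ) : Set ℂ) := by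
      push_cast
      rw [Set.image_univ]
    unfold Pool.Agent.V11168.NX.Wq
    rw [h4]
    refine (finrank_span_finset_le_card _).trans ?_
    refine (Finset.card_insert_le _ _).trans ?_
    exact Nat.succ_le_succ (Finset.card_image_le.trans (by simp))
  obtain ⟨hVf, hVr⟩ := Pool.Agent.Y916.Om.finrank_pow_le (Pool.Agent.V11168.NX.Wq c) (δ + 1)
  have hV := h (Pool.Agent.V11168.NX.Wq c ^ (δ + 1)) hVf (hVr.trans (Nat.pow_le_pow_left hWr _))
  have hae := Pool.Agent.V11168.NX.ae_ai (k := k) (m := m) (fun α => (∀ i j, Pool.Agent.Y916.Sl.DmS u R (α i + θ j)) ∧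
    Pool.Agent.Y916.Sa.RelA δ d (Pool.Agent.V11168.NX.Wq c ^ (δ + 1))
      fun p : (Fin k × Fin r) × _ => Pool.Agent.Y916.Sl.xP F q Φ (α p.1.1 + θ p.1.2) p.2) hC
    (fun T hT => hV T hT) hv (fun s hs => hv0 s hs) h2 h3
  filter_upwards [hae] with x hx
  obtain ⟨N₀, hN₀⟩ := hx
  refine ⟨N₀, fun N hN α hα hdom K hK hKd y hy P hP hP0 => ?_⟩
  by_contra hcon
  refine hN₀ N hN α hα ⟨hdom, K, hK, hKd, y, fun p => ?_, MvPolynomial.aeval (Pool.Agent.V11168.NX.fc c) P, hcon,
    Pool.Agent.V11168.NX.deg_fc c P hP, fun e => Pool.Agent.V11168.NX.coeff_fc c P hP (Nat.le_succ δ) e, ?_⟩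
  · obtain ⟨b, hb, hyb⟩ := hy p
    exact ⟨b, hb, Pool.Agent.V11168.NX.span_le_pow c (by omega) hyb⟩
  · exact (Pool.Agent.V11168.NX.eval_fc c P y).trans hP0

/-- **Theorem.** Let `F_a`, `q_a` be integral polynomials with positive leading coefficients such that `F_a q_a` is squarefree,
`deg F_a` is odd, `deg F_a + 2 deg q_a ≥ 3` and no `F_a` is proportional to an integral translate of another `F_b`, and let `Φ`
be primitives of the differentials `x^j dx / (q_a √F_a)` on a domain. For all `k`, `m` there are `ω (r, θ, δ, d, t) > 0` such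
that for every sequence `v_N ≥ 1` with exponent of convergence zero, every countable set `M` of complex numbers and almost all
`x ∈ ℝ^(k m)` (tuples of `k` monic real polynomials of degree `m`): for all distinct natural numbers `θ_1, …, θ_r`, all `δ`, `d`
and all `c_1, …, c_t ∈ M`, for all large `N` and all `k`-tuples `α` of algebraic integers of degree `m` whose minimal polynomials
have coefficients at distance at most `v_N ^ ω` from the coefficients `x_(i,j) v_N^(m-j)`, and such that all `α_i + θ_j` are in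
the domain, the generalised logarithms and logarithms at the points `α_i + θ_j` are free over the constants `c`. -/
theorem result {s : ℕ} (F q : Fin s → Polynomial ℤ)
    (hsf : ∀ a, Squarefree ((F a * q a).map (Int.castRingHom ℚ))) (hodd : ∀ a, Odd (F a).natDegree)
    (hdeg : ∀ a, 3 ≤ (F a).natDegree + 2 * (q a).natDegree)
    (hpos : ∀ a, 0 < (F a).leadingCoeff ∧ 0 < (q a).leadingCoeff)
    (hdist : ∀ a b, a ≠ b → ∀ h c₁ c₂ : ℤ, c₁ ≠ 0 → c₂ ≠ 0 →
      Polynomial.C c₁ * F a ≠ Polynomial.C c₂ * (F b).comp (Polynomial.X + Polynomial.C h))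
    (u : ℂ) (hu : u ≠ 0) (R : ℝ) (S : Fin s → ℂ → ℂ) (Φ : Idx F q → ℂ → ℂ) (hΦ : Primitives F q u R S Φ) (k m : ℕ) :
    ∃ ω : (r : ℕ) → (Fin r → ℕ) → ℕ → ℕ → ℕ → ℝ, (∀ r θ δ d t, 0 < ω r θ δ d t) ∧
      ∀ v : ℕ → ℝ, (∀ N, 1 ≤ v N) → ConvergenceExponentLe v 0 → ∀ M : Set ℂ, M.Countable →
      ∀ᵐ x : Fin k × Fin m → ℝ, ∀ (r : ℕ) (θ : Fin r → ℕ), Function.Injective θ → ∀ (δ d t : ℕ) (c : Fin t → ℂ),
      (∀ l, c l ∈ M) → ∃ N₀ : ℕ, ∀ N : ℕ, N₀ ≤ N →
        ∀ α : Fin k → ℂ, Near m x (v N) ((v N) ^ ω r θ δ d t) α → (∀ i j, α i + θ j ∈ Domain u R) →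
          FreeOver δ d c fun p : (Fin k × Fin r) × (Idx F q ⊕ Unit) => number Φ (α p.1.1 + θ p.1.2) p.2 := by
  choose ω hω hω2 using fun r θ δ d t => main F q hsf hodd hdeg hpos hdist u hu R S Φ hΦ k m r θ δ d t
  refine ⟨ω, hω, fun v hv hv0 M hM => ?_⟩
  rw [ae_all_iff]; intro r
  rw [ae_all_iff]; intro θ
  by_cases hθ : Function.Injective θ
  swap
  · exact Filter.Eventually.of_forall fun x h => absurd h hθ
  have h2 : ∀ (δ d t : ℕ), ∀ᵐ x : Fin k × Fin m → ℝ, ∀ c ∈ {c : Fin t → ℂ | ∀ l, c l ∈ M}, ∃ N₀ : ℕ, ∀ N : ℕ, N₀ ≤ N →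
        ∀ α : Fin k → ℂ, Near m x (v N) ((v N) ^ ω r θ δ d t) α → (∀ i j, α i + θ j ∈ Domain u R) →
          FreeOver δ d c fun p : (Fin k × Fin r) × (Idx F q ⊕ Unit) => number Φ (α p.1.1 + θ p.1.2) p.2 := by
    intro δ d t
    rw [ae_ball_iff (Set.countable_pi fun _ : Fin t => hM)]
    intro c _
    exact hω2 r θ δ d t v hv hv0 hθ c
  simp only [← ae_all_iff] at h2
  filter_upwards [h2] with x hx _ δ d t c hc
  exact hx δ d t c hc

end Pool.Agent.Results.MP_4b482e_nt.WindowsOfAlgebraicIntegers
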